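import Pool.Agent.Helper44.CM.StmtsB5
import Pool.Agent.Helper63.MM.Base
import Pool.Agent.Helper27.MM.MAT

/-!
# Project MM, row NSTEP: the nonlinear step
-/

open MeasureTheory Filter Topology

namespace CM

namespace H28

variable {n : ℕ}

theorem fderiv_neg_arg (f : E n → ℝ) (x : E n) :
    fderiv ℝ (fun y => f (-y)) x = - fderiv ℝ f (-x) := by
  have h := fderiv_comp_smul (𝕜 := ℝ) (f := f) (x := x) (-1 : ℝ)
  simpa using h

theorem pd_even {f : E n → ℝ} (hf : IsEv f) (i : Fin n) (x : E n) :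
    pd i f (-x) = - pd i f x := by
  have h := fderiv_neg_arg f x
  have e : (fun y => f (-y)) = f := funext fun y => hf y
  rw [e] at h
  unfold pd
  rw [h]
  simp

theorem pd_odd {f : E n → ℝ} (hf : ∀ x, f (-x) = - f x) (i : Fin n) (x : E n) :
    pd i f (-x) = pd i f x := by
  have h := fderiv_neg_arg f x
  have e : (fun y => f (-y)) = fun y => - f y := funext fun y => hf y
  rw [e, fderiv_fun_neg, neg_inj] at h
  unfold pd
  rw [h]

theorem hess_even {f : E n → ℝ} (hf : IsEv f) (x : E n) : hess f (-x) = hess f x := by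
  ext i j
  simp only [hess, Matrix.of_apply]
  exact pd_odd (fun y => pd_even hf j y) i x

theorem differentiable_pd {k : ℕ} {f : E n → ℝ} (hf : ContDiff ℝ (k + 2 : ℕ) f) (i : Fin n) :
    Differentiable ℝ (pd i f) := by
  have h : ContDiff ℝ (k + 1 : ℕ) (pd i f) := H63.contDiff_pd (k := k + 1) hf i
  exact h.differentiable (by norm_cast)

theorem differentiable_of {k : ℕ} {f : E n → ℝ} (hf : ContDiff ℝ (k + 2 : ℕ) f) :
    Differentiable ℝ f := hf.differentiable (by norm_cast)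

theorem pd_add_fun {k : ℕ} {f g : E n → ℝ} (hf : ContDiff ℝ (k + 2 : ℕ) f)
    (hg : ContDiff ℝ (k + 2 : ℕ) g) (i : Fin n) :
    pd i (fun y => f y + g y) = fun y => pd i f y + pd i g y :=
  funext fun y => H63.pd_add (differentiable_of hf y) (differentiable_of hg y) i

theorem pd_pd_add {k : ℕ} {f g : E n → ℝ} (hf : ContDiff ℝ (k + 2 : ℕ) f)
    (hg : ContDiff ℝ (k + 2 : ℕ) g) (i j : Fin n) :
    pd i (pd j (fun y => f y + g y)) = fun y => pd i (pd j f) y + pd i (pd j g) y := by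
  rw [pd_add_fun hf hg]
  funext y
  exact H63.pd_add (differentiable_pd hf j y) (differentiable_pd hg j y) i

theorem hess_add {k : ℕ} {f g : E n → ℝ} (hf : ContDiff ℝ (k + 2 : ℕ) f)
    (hg : ContDiff ℝ (k + 2 : ℕ) g) (x : E n) :
    hess (fun y => f y + g y) x = hess f x + hess g x := by
  ext i j
  simp only [hess, Matrix.of_apply, Matrix.add_apply]
  rw [pd_pd_add hf hg]

theorem eul_add {k : ℕ} {f g : E n → ℝ} (hf : ContDiff ℝ (k + 2 : ℕ) f)
    (hg : ContDiff ℝ (k + 2 : ℕ) g) (x : E n) :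
    eul (fun y => f y + g y) x = eul f x + eul g x := by
  unfold eul
  rw [fderiv_fun_add (differentiable_of hf x) (differentiable_of hg x)]
  rfl

theorem hess_symm {k : ℕ} {f : E n → ℝ} (hf : ContDiff ℝ (k + 2 : ℕ) f) (x : E n) :
    (hess f x).IsSymm := by
  ext i j
  simp only [hess, Matrix.of_apply, Matrix.transpose_apply]
  exact H63.pd_comm (hf.of_le (by norm_cast; omega)) j i x

theorem tr2_add_right (M A B : Mt n) : tr2 M (A + B) = tr2 M A + tr2 M B := by
  unfold tr2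
  rw [← Finset.sum_add_distrib]
  refine Finset.sum_congr rfl fun i _ => ?_
  rw [← Finset.sum_add_distrib]
  refine Finset.sum_congr rfl fun j _ => ?_
  rw [Matrix.add_apply]
  ring

theorem AK_add {k : ℕ} {f g : E n → ℝ} (hf : ContDiff ℝ (k + 2 : ℕ) f)
    (hg : ContDiff ℝ (k + 2 : ℕ) g) (τ : E n → Mt n) (κ : ℝ) (x : E n) :
    AK τ κ (fun y => f y + g y) x = AK τ κ f x + AK τ κ g x := by
  unfold AK LL
  rw [hess_add hf hg, eul_add hf hg, tr2_add_right]
  ring

theorem H2_mono (hA : ST_HBALG) {k : ℕ} {a b : ℝ} (hab : a ≤ b) {u : E n → ℝ}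
    (hu : H2 k a u) : H2 k b u :=
  ⟨hu.1, fun i j => (hA n).2.2.1 k k a b _ le_rfl hab (hu.2 i j)⟩

theorem H2_add (hA : ST_HBALG) {k : ℕ} {a b : ℝ} {u v : E n → ℝ} (hu : H2 k a u)
    (hv : H2 k b v) : H2 k (a + b) (fun x => u x + v x) := by
  refine ⟨hu.1.add hv.1, fun i j => ?_⟩
  rw [pd_pd_add hu.1 hv.1]
  exact (hA n).2.2.2.1 k a b _ _ (hu.2 i j) (hv.2 i j)

theorem H2_zero (hA : ST_HBALG) (k : ℕ) : H2 k 0 (fun _ : E n => (0 : ℝ)) := by
  refine ⟨contDiff_const, fun i j => ?_⟩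
  have e : pd j (fun _ : E n => (0 : ℝ)) = fun _ => 0 := funext fun x => H63.pd_const 0 x j
  rw [e]
  have e2 : pd i (fun _ : E n => (0 : ℝ)) = fun _ => 0 := funext fun x => H63.pd_const 0 x i
  rw [e2]
  have := (hA n).2.1 k 0
  rwa [abs_zero] at this

theorem hess_zero (x : E n) : hess (fun _ : E n => (0 : ℝ)) x = 0 := by
  ext i j
  simp only [hess, Matrix.of_apply, Matrix.zero_apply]
  have e : pd j (fun _ : E n => (0 : ℝ)) = fun _ => 0 := funext fun x => H63.pd_const 0 x j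
  rw [e, H63.pd_const]

theorem AK_zero (τ : E n → Mt n) (κ : ℝ) (x : E n) : AK τ κ (fun _ => (0 : ℝ)) x = 0 := by
  unfold AK LL
  rw [hess_zero]
  simp [tr2, eul]

theorem HB_abs {k : ℕ} {K : ℝ} {f : E n → ℝ} (h : HB k K f) (x : E n) : |f x| ≤ K :=
  (h.2 [] (Nat.zero_le _)).1 x

theorem H2_abs {k : ℕ} {K : ℝ} {u : E n → ℝ} (h : H2 k K u) (x : E n) (i j : Fin n) :
    |hess u x i j| ≤ K := HB_abs (h.2 i j) x

theorem LB_add {c b : ℝ} {G B : Mt n} (hG : LB c G) (hb : 0 ≤ b) (hB : ∀ i j, |B i j| ≤ b) :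
    LB (c - n * b) (G + B) := by
  intro v
  have h1 := hG v
  have h2 : ∀ i j, - (b * (|v i| * |v j|)) ≤ v i * B i j * v j := by
    intro i j
    have h3 : |v i * B i j * v j| ≤ b * (|v i| * |v j|) := by
      rw [abs_mul, abs_mul]
      have := mul_le_mul_of_nonneg_left (hB i j) (mul_nonneg (abs_nonneg (v i)) (abs_nonneg (v j)))
      nlinarith [this]
    have := neg_abs_le (v i * B i j * v j)
    linarith
  have h3 : ∑ i, ∑ j, (v i * (G + B) i j * v j)
      = ∑ i, ∑ j, v i * G i j * v j + ∑ i, ∑ j, v i * B i j * v j := by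
    rw [← Finset.sum_add_distrib]
    refine Finset.sum_congr rfl fun i _ => ?_
    rw [← Finset.sum_add_distrib]
    refine Finset.sum_congr rfl fun j _ => ?_
    rw [Matrix.add_apply]
    ring
  rw [h3]
  have h4 : - (b * (∑ i, |v i|) ^ 2) ≤ ∑ i, ∑ j, v i * B i j * v j := by
    have e : - (b * (∑ i, |v i|) ^ 2) = ∑ i, ∑ j, - (b * (|v i| * |v j|)) := by
      rw [sq, Finset.sum_mul_sum, Finset.mul_sum, ← Finset.sum_neg_distrib]
      refine Finset.sum_congr rfl fun i _ => ?_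
      rw [Finset.mul_sum, ← Finset.sum_neg_distrib]
    rw [e]
    exact Finset.sum_le_sum fun i _ => Finset.sum_le_sum fun j _ => h2 i j
  have h5 : (∑ i, |v i|) ^ 2 ≤ n * ∑ i, v i ^ 2 := by
    have := sq_sum_le_card_mul_sum_sq (s := (Finset.univ : Finset (Fin n))) (f := fun i => |v i|)
    simpa using this
  have h6 := mul_le_mul_of_nonneg_left h5 hb
  nlinarith [h6]

theorem Rm_zero (G : Mt n) : Rm G 0 = 0 := by
  unfold Rm
  simp [tr2]

theorem WW_add {k : ℕ} {V v : E n → ℝ} (hV : ContDiff ℝ (k + 2 : ℕ) V)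
    (hv : ContDiff ℝ (k + 2 : ℕ) v) (x : E n) :
    WW (fun y => V y + v y) x
      = WW V x + AK (tau V) 1 v x + Rm (hess V x) (hess v x) := by
  unfold WW AK LL Rm tau
  rw [hess_add hV hv, eul_add hV hv]
  ring

/-- A solution operator for `A - 1`, by choice. -/
noncomputable def sol (V : E n → ℝ) (r : E n → ℝ) : E n → ℝ :=
  open Classical in
  if h : ∃ u : E n → ℝ, IsEv u ∧ (∃ M, H2 3 M u) ∧ ∀ x, AK (tau V) 1 u x = r x
  then h.choose else fun _ => 0

/-- Right hand side of the iteration. -/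
noncomputable def rhs (V P Q : E n → ℝ) : E n → ℝ :=
  fun x => (-1) * (Rm (hess V x) (hess Q x) - Rm (hess V x) (hess P x))

/-- The iteration: the pair (partial sum, next term). -/
noncomputable def seq (V r : E n → ℝ) : ℕ → (E n → ℝ) × (E n → ℝ)
  | 0 => (fun _ => 0, sol V r)
  | m + 1 => (fun x => (seq V r m).1 x + (seq V r m).2 x,
      sol V (rhs V (seq V r m).1 (fun x => (seq V r m).1 x + (seq V r m).2 x)))

theorem sol_spec {V : E n → ℝ} (hL : LinSolv V) {C : ℝ}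
    (hC : ∀ (u r : E n → ℝ) (M N : ℝ), IsEv u → H2 3 M u →
      (∀ x, AK (tau V) 1 u x = r x) → HB 3 N r → H2 3 (C * N) u ∧ |u 0| ≤ C * N)
    {r : E n → ℝ} {N : ℝ} (hr : IsEv r) (hN : HB 3 N r) :
    IsEv (sol V r) ∧ H2 3 (C * N) (sol V r) ∧ |sol V r 0| ≤ C * N ∧
      ∀ x, AK (tau V) 1 (sol V r) x = r x := by
  have hex : ∃ u : E n → ℝ, IsEv u ∧ (∃ M, H2 3 M u) ∧ ∀ x, AK (tau V) 1 u x = r x := by
    obtain ⟨u, M, h1, h2, h3⟩ := hL r N hr hN
    exact ⟨u, h1, ⟨M, h2⟩, h3⟩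
  have e : sol V r = hex.choose := by
    unfold sol
    rw [dif_pos hex]
  rw [e]
  obtain ⟨h1, ⟨M, h2⟩, h3⟩ := hex.choose_spec
  obtain ⟨h4, h5⟩ := hC _ r M N h1 h2 h3 hN
  exact ⟨h1, h4, h5, h3⟩

/-- The invariant of the iteration. -/
structure Inv (V r : E n → ℝ) (η : ℝ) (m : ℕ) : Prop where
  evP : IsEv (seq V r m).1
  evw : IsEv (seq V r m).2
  hP : H2 3 (η * (2 - 2 * (1 / 2) ^ m)) (seq V r m).1
  hw : H2 3 (η * (1 / 2) ^ m) (seq V r m).2
  h0 : |(seq V r m).2 0| ≤ η * (1 / 2) ^ m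
  heq : ∀ x, AK (tau V) 1 (seq V r m).1 x + AK (tau V) 1 (seq V r m).2 x
    = r x - Rm (hess V x) (hess (seq V r m).1 x)

theorem rhs_even {V P Q : E n → ℝ} (hV : IsEv V) (hP : IsEv P) (hQ : IsEv Q) :
    IsEv (rhs V P Q) := by
  intro x
  unfold rhs
  rw [hess_even hV, hess_even hP, hess_even hQ]

theorem inv_all (hA : ST_HBALG) {V r : E n → ℝ} (hVe : IsEv V) (hL : LinSolv V) {C : ℝ}
    (hC : ∀ (u r : E n → ℝ) (M N : ℝ), IsEv u → H2 3 M u →
      (∀ x, AK (tau V) 1 u x = r x) → HB 3 N r → H2 3 (C * N) u ∧ |u 0| ≤ C * N)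
    {c K : ℝ} (hLB : ∀ x, LB c (hess V x)) (hVr : H2 3 K V) {CR ε0 : ℝ}
    (hR : ∀ (G B B' : E n → Mt n) (ε δ : ℝ),
      ε ≤ ε0 → (∀ x, (G x).IsSymm) → (∀ x, (B x).IsSymm) → (∀ x, (B' x).IsSymm) →
      (∀ x, LB c (G x)) → (∀ i j, HB 3 K (fun x => G x i j)) →
      (∀ i j, HB 3 ε (fun x => B x i j)) → (∀ i j, HB 3 ε (fun x => B' x i j)) →
      (∀ i j, HB 3 δ (fun x => B x i j - B' x i j)) →
      HB 3 (CR * ε * δ) (fun x => Rm (G x) (B x) - Rm (G x) (B' x)))
    {η δ : ℝ} (hη : 0 < η) (hη0 : 2 * η ≤ ε0) (hηC : 4 * (|C| * |CR|) * η ≤ 1)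
    (hδ : |C| * |δ| ≤ η) (hr : IsEv r) (hrB : HB 3 δ r) (m : ℕ) : Inv V r η m := by
  induction m with
  | zero =>
    obtain ⟨h1, h2, h3, h4⟩ := sol_spec hL hC hr hrB
    have hle : C * δ ≤ η * (1 / 2) ^ 0 := by
      have : C * δ ≤ |C| * |δ| := by rw [← abs_mul]; exact le_abs_self _
      simpa using this.trans hδ
    refine ⟨fun x => rfl, h1, ?_, H2_mono hA hle h2, h3.trans hle, ?_⟩
    · have e : η * (2 - 2 * (1 / 2) ^ 0) = 0 := by ring
      rw [e]
      exact H2_zero hA 3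
    · intro x
      change AK (tau V) 1 (fun _ => 0) x + AK (tau V) 1 (sol V r) x
        = r x - Rm (hess V x) (hess (fun _ => 0) x)
      rw [AK_zero, hess_zero, Rm_zero, h4 x]
      ring
  | succ m ih =>
    set P := (seq V r m).1 with hPdef
    set w := (seq V r m).2 with hwdef
    have hpow : (0 : ℝ) < (1 / 2) ^ m := by positivity
    have hPd : ContDiff ℝ (3 + 2 : ℕ) P := ih.hP.1
    have hwd : ContDiff ℝ (3 + 2 : ℕ) w := ih.hw.1
    have hPe : IsEv P := ih.evP
    have hwe : IsEv w := ih.evw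
    have hih : ∀ x, AK (tau V) 1 P x + AK (tau V) 1 w x = r x - Rm (hess V x) (hess P x) :=
      ih.heq
    have hQev : IsEv (fun x => P x + w x) := fun x => by
      simp only
      rw [hPe x, hwe x]
    have hQ : H2 3 (η * (2 - 2 * (1 / 2) ^ (m + 1))) (fun x => P x + w x) := by
      have := H2_add hA ih.hP ih.hw
      have e : η * (2 - 2 * (1 / 2) ^ m) + η * (1 / 2) ^ m
          = η * (2 - 2 * (1 / 2) ^ (m + 1)) := by ring
      rwa [e] at this
    have hQ2 : H2 3 (2 * η) (fun x => P x + w x) := by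
      refine H2_mono hA ?_ hQ
      have : (0 : ℝ) < (1 / 2) ^ (m + 1) := by positivity
      nlinarith
    have hP2 : H2 3 (2 * η) P := by
      refine H2_mono hA ?_ ih.hP
      nlinarith
    have hρ : HB 3 (|(-1 : ℝ)| * (CR * (2 * η) * (η * (1 / 2) ^ m)))
        (rhs V P (fun x => P x + w x)) := by
      refine (hA n).2.2.2.2.1 3 _ (-1) _ ?_
      refine hR (hess V) (hess (fun x => P x + w x)) (hess P) (2 * η) (η * (1 / 2) ^ m) hη0
        (hess_symm hVr.1) (hess_symm hQ2.1) (hess_symm hPd) hLB (fun i j => hVr.2 i j)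
        (fun i j => hQ2.2 i j) (fun i j => hP2.2 i j) ?_
      intro i j
      have e : (fun x => hess (fun x => P x + w x) x i j - hess P x i j)
          = pd i (pd j w) := by
        funext x
        rw [hess_add hPd hwd]
        simp only [hess, Matrix.of_apply, Matrix.add_apply]
        ring
      rw [e]
      exact ih.hw.2 i j
    obtain ⟨h1, h2, h3, h4⟩ := sol_spec hL hC (rhs_even hVe ih.evP hQev) hρ
    have hle : C * (|(-1 : ℝ)| * (CR * (2 * η) * (η * (1 / 2) ^ m)))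
        ≤ η * (1 / 2) ^ (m + 1) := by
      rw [abs_neg, abs_one, one_mul]
      have e1 : C * (CR * (2 * η) * (η * (1 / 2) ^ m))
          = (C * CR) * (2 * η * (η * (1 / 2) ^ m)) := by ring
      have e2 : η * (1 / 2) ^ (m + 1) = (1 / 2) * (η * (1 / 2) ^ m) := by ring
      rw [e1, e2]
      have h5 : C * CR ≤ |C| * |CR| := by rw [← abs_mul]; exact le_abs_self _
      have h6 : 0 < η * (1 / 2) ^ m := by positivity
      have h7 : (C * CR) * (2 * η * (η * (1 / 2) ^ m))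
          ≤ (|C| * |CR|) * (2 * η * (η * (1 / 2) ^ m)) :=
        mul_le_mul_of_nonneg_right h5 (by positivity)
      nlinarith
    refine ⟨hQev, h1, hQ, H2_mono hA hle h2, h3.trans hle, ?_⟩
    intro x
    change AK (tau V) 1 (fun x => P x + w x) x
        + AK (tau V) 1 (sol V (rhs V P (fun x => P x + w x))) x
      = r x - Rm (hess V x) (hess (fun x => P x + w x) x)
    rw [h4 x, AK_add hPd hwd, hih x]
    unfold rhs
    ring

theorem hasSum_AK {τ : E n → Mt n} {κ : ℝ} {w : ℕ → E n → ℝ} {v : E n → ℝ} {x : E n}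
    (h1 : HasSum (fun m => w m x) (v x)) (h2 : HasSum (fun m => eul (w m) x) (eul v x))
    (h3 : ∀ i j, HasSum (fun m => pd i (pd j (w m)) x) (pd i (pd j v) x)) :
    HasSum (fun m => AK τ κ (w m) x) (AK τ κ v x) := by
  unfold AK LL tr2
  refine HasSum.sub (HasSum.neg (HasSum.sub ?_ h2)) (h1.mul_left κ)
  refine hasSum_sum fun i _ => hasSum_sum fun j _ => ?_
  simp only [hess, Matrix.of_apply]
  exact (h3 i j).mul_left _

theorem tendsto_Rm {G B : Mt n} {Bm : ℕ → Mt n} (h : ∀ i j, Tendsto (fun m => Bm m i j) atTop (𝓝 (B i j)))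
    (hdet : (G + B).det ≠ 0) : Tendsto (fun m => Rm G (Bm m)) atTop (𝓝 (Rm G B)) := by
  have hB : Tendsto Bm atTop (𝓝 B) :=
    tendsto_pi_nhds.mpr fun i => tendsto_pi_nhds.mpr fun j => h i j
  have hd : Tendsto (fun m => (G + Bm m).det) atTop (𝓝 (G + B).det) := by
    have hc : Continuous (fun A : Mt n => (G + A).det) :=
      Continuous.matrix_det (continuous_const.add continuous_id)
    exact (hc.tendsto B).comp hB
  unfold Rm tr2
  refine Tendsto.add (Tendsto.sub ?_ (hd.log hdet)) tendsto_const_nhds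
  exact tendsto_finsetSum _ fun i _ => tendsto_finsetSum _ fun j _ => (h i j).const_mul _

theorem partial_sums {V r : E n → ℝ} {η : ℝ} (hI : ∀ m, Inv V r η m) (m : ℕ) (x : E n) :
    (∀ i j, hess (seq V r m).1 x i j = ∑ k ∈ Finset.range m, hess (seq V r k).2 x i j) ∧
    AK (tau V) 1 (seq V r m).1 x = ∑ k ∈ Finset.range m, AK (tau V) 1 (seq V r k).2 x := by
  induction m with
  | zero =>
    constructor
    · intro i j
      change hess (fun _ => 0) x i j = _
      rw [hess_zero]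
      simp
    · change AK (tau V) 1 (fun _ => 0) x = _
      rw [AK_zero]
      simp
  | succ m ih =>
    have hPd : ContDiff ℝ (3 + 2 : ℕ) (seq V r m).1 := (hI m).hP.1
    have hwd : ContDiff ℝ (3 + 2 : ℕ) (seq V r m).2 := (hI m).hw.1
    constructor
    · intro i j
      rw [Finset.sum_range_succ, ← ih.1 i j]
      change hess (fun x => (seq V r m).1 x + (seq V r m).2 x) x i j = _
      rw [hess_add hPd hwd, Matrix.add_apply]
    · rw [Finset.sum_range_succ, ← ih.2]
      change AK (tau V) 1 (fun x => (seq V r m).1 x + (seq V r m).2 x) x = _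
      rw [AK_add hPd hwd]

theorem limit_eq {V r v : E n → ℝ} {η : ℝ} (hI : ∀ m, Inv V r η m)
    (h1 : ∀ x, HasSum (fun m => (seq V r m).2 x) (v x))
    (h2 : ∀ x, HasSum (fun m => eul (seq V r m).2 x) (eul v x))
    (h3 : ∀ x i j, HasSum (fun m => pd i (pd j (seq V r m).2) x) (pd i (pd j v) x))
    (hdet : ∀ x, (hess V x + hess v x).det ≠ 0) (x : E n) :
    AK (tau V) 1 v x + Rm (hess V x) (hess v x) = r x := by
  have hs : HasSum (fun m => AK (tau V) 1 (seq V r m).2 x) (AK (tau V) 1 v x) :=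
    hasSum_AK (h1 x) (h2 x) (h3 x)
  have hP : Tendsto (fun m => AK (tau V) 1 (seq V r m).1 x) atTop (𝓝 (AK (tau V) 1 v x)) := by
    have := hs.tendsto_sum_nat
    refine this.congr fun m => ?_
    rw [(partial_sums hI m x).2]
  have hw : Tendsto (fun m => AK (tau V) 1 (seq V r m).2 x) atTop (𝓝 0) :=
    hs.summable.tendsto_atTop_zero
  have hH : ∀ i j, Tendsto (fun m => hess (seq V r m).1 x i j) atTop (𝓝 (hess v x i j)) := by
    intro i j
    have := (h3 x i j).tendsto_sum_nat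
    refine this.congr fun m => ?_
    rw [(partial_sums hI m x).1 i j]
    rfl
  have hR := tendsto_Rm hH (hdet x)
  have h4 := (hP.add hw).add hR
  have h5 : Tendsto (fun _ : ℕ => r x) atTop
      (𝓝 (AK (tau V) 1 v x + 0 + Rm (hess V x) (hess v x))) := by
    refine h4.congr fun m => ?_
    rw [(hI m).heq x]
    ring
  have h6 := tendsto_nhds_unique h5 tendsto_const_nhds
  linarith

end H28

open H28 in
/-- The nonlinear step. -/
theorem st_NSTEP (hPACK : ST_PACK) (hAPL : ST_APL) (hSUM : ST_SUMLIM) (hHBLD : ST_HBLD)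
    (hA : ST_HBALG) : ST_NSTEP := by
  intro n c K R0 ε hε
  by_cases hc : 0 < c
  swap
  · exact ⟨1, one_pos, fun F F' V hF => absurd hF.c_pos hc⟩
  obtain ⟨K2, hK2⟩ := hPACK n c K R0
  obtain ⟨C, hC⟩ := hAPL n c K2 hc
  obtain ⟨CR, ε0, hε0, hR⟩ := hHBLD n 3 c K2 hc
  set D : ℝ := |C| * |CR| with hD
  have hD0 : 0 ≤ D := mul_nonneg (abs_nonneg _) (abs_nonneg _)
  have hn0 : (0 : ℝ) ≤ n := Nat.cast_nonneg n
  obtain ⟨η, hη, hη1, hη2, hη3, hη4⟩ : ∃ η : ℝ, 0 < η ∧ 2 * η ≤ ε ∧ 2 * η ≤ ε0 ∧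
      4 * D * η ≤ 1 ∧ 4 * (n + 1) * η ≤ c := by
    refine ⟨min (min (ε / 2) (ε0 / 2)) (min (1 / (4 * (D + 1))) (c / (4 * (n + 1)))), ?_, ?_, ?_, ?_, ?_⟩
    · refine lt_min (lt_min (by positivity) (by positivity)) (lt_min (by positivity) (by positivity))
    · have : min (min (ε / 2) (ε0 / 2)) (min (1 / (4 * (D + 1))) (c / (4 * (n + 1)))) ≤ ε / 2 :=
        (min_le_left _ _).trans (min_le_left _ _)
      linarith
    · have : min (min (ε / 2) (ε0 / 2)) (min (1 / (4 * (D + 1))) (c / (4 * (n + 1)))) ≤ ε0 / 2 :=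
        (min_le_left _ _).trans (min_le_right _ _)
      linarith
    · have h1 : min (min (ε / 2) (ε0 / 2)) (min (1 / (4 * (D + 1))) (c / (4 * (n + 1))))
          ≤ 1 / (4 * (D + 1)) := (min_le_right _ _).trans (min_le_left _ _)
      calc 4 * D * min (min (ε / 2) (ε0 / 2)) (min (1 / (4 * (D + 1))) (c / (4 * (n + 1))))
          ≤ 4 * D * (1 / (4 * (D + 1))) := mul_le_mul_of_nonneg_left h1 (by positivity)
        _ ≤ 1 := by
            rw [mul_one_div, div_le_one (by positivity)]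
            linarith
    · have h1 : min (min (ε / 2) (ε0 / 2)) (min (1 / (4 * (D + 1))) (c / (4 * (n + 1))))
          ≤ c / (4 * (n + 1)) := (min_le_right _ _).trans (min_le_right _ _)
      calc 4 * (n + 1) * min (min (ε / 2) (ε0 / 2)) (min (1 / (4 * (D + 1))) (c / (4 * (n + 1))))
          ≤ 4 * (n + 1) * (c / (4 * (n + 1))) := mul_le_mul_of_nonneg_left h1 (by positivity)
        _ = c := by field_simp
  refine ⟨η / (|C| + 1), by positivity, ?_⟩
  intro F F' V hF hF' hδ hS hL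
  have hpack := hK2 F V hF hS
  set r : E n → ℝ := fun x => F' x - F x with hr
  have hre : IsEv r := fun x => by
    simp only [hr]
    rw [hF'.even x, hF.even x]
  have hCV : ∀ (u r : E n → ℝ) (M N : ℝ), IsEv u → H2 3 M u →
      (∀ x, AK (tau V) 1 u x = r x) → HB 3 N r → H2 3 (C * N) u ∧ |u 0| ≤ C * N :=
    hC V hS.even hpack
  have hδη : |C| * |η / (|C| + 1)| ≤ η := by
    have hq : 0 < η / (|C| + 1) := by positivity
    rw [abs_of_pos hq, mul_div_assoc', div_le_iff₀ (by positivity)]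
    nlinarith [abs_nonneg C]
  have hI : ∀ m, Inv V r η m := fun m =>
    inv_all hA hS.even hL hCV hpack.lo hpack.bd (CR := CR) (ε0 := ε0) hR hη hη2 hη3 hδη hre hδ m
  obtain ⟨v, hv1, hv2, hv3, hv4, hv5⟩ := hSUM n (fun m => (seq V r m).2) η
    (fun m => (hI m).evw) (fun m => (hI m).hw) (fun m => (hI m).h0)
  have hVd : ContDiff ℝ (3 + 2 : ℕ) V := hpack.bd.1
  have hvd : ContDiff ℝ (3 + 2 : ℕ) v := hv2.1
  have hLB : ∀ x, LB (c - n * (2 * η)) (hess V x + hess v x) := fun x =>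
    LB_add (hpack.lo x) (by positivity) (fun i j => H2_abs hv2 x i j)
  have hpos : 0 < c - n * (2 * η) := by nlinarith
  have hsymm : ∀ x, (hess V x + hess v x).IsSymm := fun x => by
    rw [← hess_add hVd hvd]
    exact hess_symm (hVd.add hvd) x
  have hdet : ∀ x, (hess V x + hess v x).det ≠ 0 := fun x =>
    (MM27.mat_det_pos hpos (hsymm x) (hLB x)).ne'
  refine ⟨fun x => V x + v x, ⟨?_, ?_, ?_, ?_⟩, ?_⟩
  · intro x
    simp only
    rw [hS.even x, hv1 x]
  · exact ⟨K2 + 2 * η, H2_add hA hpack.bd hv2⟩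
  · refine ⟨c - n * (2 * η), hpos, fun x => ?_⟩
    rw [hess_add hVd hvd]
    exact hLB x
  · intro x
    have h1 := limit_eq hI hv3 hv4 hv5 hdet x
    rw [WW_add hVd hvd x, hS.eq x]
    have h2 : r x = F' x - F x := rfl
    linarith
  · have e : (fun x => V x + v x - V x) = v := funext fun x => by ring
    rw [e]
    exact H2_mono hA hη1 hv2

end CM
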